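import Pool.Agent.Q287.PI.Main

set_option autoImplicit false

/-!
# The value of the point-versus-interval game `Γ_β` is `M(β)` for every `β ≥ 0`

Definitions (`Pool.Agent.Q287.PI.Defs`): `Red` is the set of RED's pure strategies `(a, A)` with
`0 ≤ a`, `0 ≤ A`, `a + A ≤ 1`; `Blue = [0, 1]`; `payoff β (a, A) p` is `-β A` if `p ∈ [a, a + A]`
and `A` otherwise; `expect β μ ν` is the expected payoff for Borel probability measures `μ`, `ν`;
`lowerValue β = sup_μ inf_ν`, `upperValue β = inf_ν sup_μ`; `IsM β v` says that `v` is the greatest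
element of `{(n - 1 - β) / n² : n ≥ 1}`.
-/

namespace Pool.Agent.Results.MP_d7d923_pr.ValueOfTheGame

open Q287.PI

/-- **Theorem.** For every `β ≥ 0` the maximum `M(β) = max_{n ≥ 1} (n - 1 - β) / n²` exists, and the
game `Γ_β` has a value, which equals `M(β)`. -/
theorem result : ∀ β : ℝ, 0 ≤ β → ∃ v : ℝ, IsM β v ∧ lowerValue β = v ∧ upperValue β = v := by
  intro β hβ
  obtain ⟨v, hv, hv0⟩ := exists_isM hβ
  exact ⟨v, hv, value_eq hβ hv hv0⟩

end Pool.Agent.Results.MP_d7d923_pr.ValueOfTheGame
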